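import Mathlib

/-!
# MP_900fba_co : a two-equation system with twelfth powers is not partition regular

Colour a nonzero integer `m = 5^v * u` (`5 ∤ u`) by `(v mod 3, u mod 5)`.  This uses `12` colours,
and already the first equation `5^4 x + 3^6 y = w z^12` has no monochromatic solution.
-/

namespace Pool.Agent.Results.MP_900fba_co.NotPartitionRegular

/-- The nonzero integers. -/
abbrev NZ : Type := {m : ℤ // m ≠ 0}

/-- The system of the problem is partition regular over the nonzero integers: every finite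
colouring of the nonzero integers admits a solution of both equations whose eight entries
have one common colour. -/
def PartitionRegular : Prop :=
  ∀ (r : ℕ) (c : NZ → Fin r), ∃ (j : Fin r) (x₁ y₁ w₁ z₁ x₂ y₂ w₂ z₂ : NZ),
    (5 ^ 4 * (x₁ : ℤ) + 3 ^ 6 * (y₁ : ℤ) = (w₁ : ℤ) * (z₁ : ℤ) ^ 12) ∧
    ((5 ^ 4 - 3 ^ 6) * (x₂ : ℤ) + 3 ^ 6 * (y₂ : ℤ) = (w₂ : ℤ) * (z₂ : ℤ) ^ 12) ∧
    c x₁ = j ∧ c y₁ = j ∧ c w₁ = j ∧ c z₁ = j ∧ c x₂ = j ∧ c y₂ = j ∧ c w₂ = j ∧ c z₂ = j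

lemma exists_decomp (m : NZ) : ∃ p : ℕ × ℤ, (m : ℤ) = 5 ^ p.1 * p.2 ∧ ¬ (5 : ℤ) ∣ p.2 := by
  have hf : FiniteMultiplicity (5 : ℤ) (m : ℤ) := by
    rw [Int.finiteMultiplicity_iff]
    exact ⟨by norm_num, m.2⟩
  obtain ⟨c, hc, hd⟩ := hf.exists_eq_pow_mul_and_not_dvd
  exact ⟨(multiplicity (5 : ℤ) (m : ℤ), c), hc, hd⟩

/-- exponent of `5` in `m` -/
noncomputable def ev (m : NZ) : ℕ := (exists_decomp m).choose.1

/-- cofactor of `m` prime to `5` -/
noncomputable def un (m : NZ) : ℤ := (exists_decomp m).choose.2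

lemma eq_ev_un (m : NZ) : (m : ℤ) = 5 ^ ev m * un m := (exists_decomp m).choose_spec.1

lemma not_dvd_un (m : NZ) : ¬ (5 : ℤ) ∣ un m := (exists_decomp m).choose_spec.2

lemma prime5 : Prime (5 : ℤ) := by
  rw [Int.prime_iff_natAbs_prime]
  norm_num

lemma unique_aux {i j : ℕ} {U V : ℤ} (hU : ¬ (5 : ℤ) ∣ U) (hij : i < j)
    (h : 5 ^ i * U = 5 ^ j * V) : False := by
  obtain ⟨k, rfl⟩ := Nat.exists_eq_add_of_lt hij
  apply hU
  have h5 : (5 : ℤ) ^ i ≠ 0 := by positivity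
  have : U = 5 ^ (k + 1) * V := by
    apply mul_left_cancel₀ h5
    rw [h]
    ring
  rw [this, pow_succ]
  exact ⟨5 ^ k * V, by ring⟩

lemma unique {i j : ℕ} {U V : ℤ} (hU : ¬ (5 : ℤ) ∣ U) (hV : ¬ (5 : ℤ) ∣ V)
    (h : 5 ^ i * U = 5 ^ j * V) : i = j ∧ U = V := by
  have hij : i = j := by
    rcases lt_trichotomy i j with hlt | heq | hgt
    · exact (unique_aux hU hlt h).elim
    · exact heq
    · exact (unique_aux hV hgt h.symm).elim
  subst hij
  exact ⟨rfl, mul_left_cancel₀ (by positivity) h⟩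

lemma pow12 {Z : ℤ} (hZ : ¬ (5 : ℤ) ∣ Z) : Z ^ 12 ≡ 1 [ZMOD 5] := by
  have h4 : Z ^ 4 ≡ 1 [ZMOD 5] := by
    have h := Int.emod_nonneg Z (by norm_num : (5 : ℤ) ≠ 0)
    have h' := Int.emod_lt_of_pos Z (by norm_num : (0 : ℤ) < 5)
    have hz : Z % 5 ≠ 0 := fun h0 => hZ (Int.dvd_of_emod_eq_zero h0)
    have hm : Z ≡ Z % 5 [ZMOD 5] := (Int.mod_modEq Z 5).symm
    have hp : Z ^ 4 ≡ (Z % 5) ^ 4 [ZMOD 5] := hm.pow 4
    refine hp.trans ?_
    generalize Z % 5 = t at *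
    have : t = 1 ∨ t = 2 ∨ t = 3 ∨ t = 4 := by omega
    rcases this with rfl | rfl | rfl | rfl <;> decide
  have := h4.pow 3
  simpa [← pow_mul] using this

lemma key {a b d e : ℕ} {X Y W Z : ℤ}
    (hX : ¬ (5 : ℤ) ∣ X) (hY : ¬ (5 : ℤ) ∣ Y) (hW : ¬ (5 : ℤ) ∣ W) (hZ : ¬ (5 : ℤ) ∣ Z)
    (hab : a % 3 = b % 3) (had : a % 3 = d % 3) (hYW : Y ≡ W [ZMOD 5]) :
    5 ^ 4 * (5 ^ a * X) + 3 ^ 6 * (5 ^ b * Y) ≠ (5 ^ d * W) * (5 ^ e * Z) ^ 12 := by
  intro h
  have hR : ¬ (5 : ℤ) ∣ W * Z ^ 12 := by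
    intro hd
    rcases prime5.dvd_or_dvd hd with h1 | h1
    · exact hW h1
    · exact hZ (prime5.dvd_of_dvd_pow h1)
  have hRHS : (5 ^ d * W) * (5 ^ e * Z) ^ 12 = 5 ^ (d + 12 * e) * (W * Z ^ 12) := by
    rw [mul_pow, pow_add, ← pow_mul, mul_comm e 12]
    ring
  rw [hRHS] at h
  rcases lt_trichotomy (a + 4) b with hlt | heq | hgt
  · obtain ⟨k, rfl⟩ := Nat.exists_eq_add_of_lt hlt
    have hL : 5 ^ 4 * (5 ^ a * X) + 3 ^ 6 * (5 ^ (a + 4 + k + 1) * Y)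
        = 5 ^ (a + 4) * (X + 5 * (3 ^ 6 * 5 ^ k * Y)) := by ring
    rw [hL] at h
    have hU : ¬ (5 : ℤ) ∣ X + 5 * (3 ^ 6 * 5 ^ k * Y) := by
      intro hd
      exact hX ((Int.dvd_add_left (Dvd.intro _ rfl)).1 hd)
    have := (unique hU hR h).1
    omega
  · omega
  · obtain ⟨k, hk⟩ := Nat.exists_eq_add_of_lt hgt
    have hL : 5 ^ 4 * (5 ^ a * X) + 3 ^ 6 * (5 ^ b * Y)
        = 5 ^ b * (729 * Y + 5 * (5 ^ k * X)) := by
      have : (5 : ℤ) ^ 4 * (5 ^ a * X) = 5 ^ (a + 4) * X := by ring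
      rw [this, hk]
      ring
    rw [hL] at h
    have hU : ¬ (5 : ℤ) ∣ 729 * Y + 5 * (5 ^ k * X) := by
      intro hd
      have h1 := (Int.dvd_add_left (Dvd.intro _ rfl)).1 hd
      rcases prime5.dvd_or_dvd h1 with h2 | h2
      · omega
      · exact hY h2
    have h2 := (unique hU hR h).2
    have h3 : 729 * Y + 5 * (5 ^ k * X) ≡ 4 * W [ZMOD 5] := by
      have e1 : (729 : ℤ) * Y ≡ 4 * W [ZMOD 5] := Int.ModEq.mul (by decide) hYW
      have e2 : (5 : ℤ) * (5 ^ k * X) ≡ 0 [ZMOD 5] := by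
        rw [Int.modEq_zero_iff_dvd]
        exact Dvd.intro _ rfl
      simpa using e1.add e2
    have h4 : W * Z ^ 12 ≡ W * 1 [ZMOD 5] := Int.ModEq.mul_left W (pow12 hZ)
    rw [h2] at h3
    have h5 : 4 * W ≡ W [ZMOD 5] := by
      have := h3.symm.trans h4
      simpa using this
    apply hW
    have h6 : (5 : ℤ) ∣ W - 4 * W := h5.dvd
    omega

lemma un_mod (m : NZ) : 1 ≤ un m % 5 ∧ un m % 5 ≤ 4 := by
  have h1 := not_dvd_un m
  omega

/-- The colour of a nonzero integer `m = 5 ^ v * u` with `5 ∤ u`: it encodes the pair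
`(v mod 3, u mod 5)`, which takes `12` values. -/
noncomputable def col (m : NZ) : Fin 12 :=
  ⟨(ev m % 3) * 4 + ((un m % 5).toNat - 1), by
    have := un_mod m
    omega⟩

lemma col_eq {m n : NZ} (h : col m = col n) :
    ev m % 3 = ev n % 3 ∧ un m ≡ un n [ZMOD 5] := by
  have h1 : (ev m % 3) * 4 + ((un m % 5).toNat - 1)
      = (ev n % 3) * 4 + ((un n % 5).toNat - 1) := congrArg Fin.val h
  have h2 := un_mod m
  have h3 := un_mod n
  unfold Int.ModEq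
  omega

/-- Main result.  The system is not partition regular over the nonzero integers.  More
precisely there is a colouring of the nonzero integers with `12` colours without any
monochromatic solution of the first equation `5^4 x + 3^6 y = w z^12` alone. -/
theorem result :
    ¬ PartitionRegular ∧
    ∃ c : NZ → Fin 12, ∀ (j : Fin 12) (x y w z : NZ),
      c x = j → c y = j → c w = j → c z = j →
      5 ^ 4 * (x : ℤ) + 3 ^ 6 * (y : ℤ) ≠ (w : ℤ) * (z : ℤ) ^ 12 := by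
  have main : ∀ (j : Fin 12) (x y w z : NZ),
      col x = j → col y = j → col w = j → col z = j →
      5 ^ 4 * (x : ℤ) + 3 ^ 6 * (y : ℤ) ≠ (w : ℤ) * (z : ℤ) ^ 12 := by
    intro j x y w z hx hy hw hz
    have hxy := col_eq (hx.trans hy.symm)
    have hxw := col_eq (hx.trans hw.symm)
    have hyw := col_eq (hy.trans hw.symm)
    rw [eq_ev_un x, eq_ev_un y, eq_ev_un w, eq_ev_un z]
    exact key (not_dvd_un x) (not_dvd_un y) (not_dvd_un w) (not_dvd_un z)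
      hxy.1 hxw.1 hyw.2
  refine ⟨?_, col, main⟩
  intro hPR
  obtain ⟨j, x₁, y₁, w₁, z₁, x₂, y₂, w₂, z₂, h1, -, hx, hy, hw, hz, -⟩ := hPR 12 col
  exact main j x₁ y₁ w₁ z₁ hx hy hw hz h1

end Pool.Agent.Results.MP_900fba_co.NotPartitionRegular
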